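import Pool.Agent.H846.Plc.Irr

/-!
# The standard conjecture of Hodge type for `X × Y` from detection at places

In characteristic `p` the theorem gives the standard conjecture of Hodge type (modulo numerical
equivalence) in all codimensions for the products `X × Y`, where `X` is a surface for which the
transcendental part of `H^2(X)` is irreducible for the open subgroups of the geometric monodromy
group and the Picard number jumps at one specialisation `(X₀, Y₀)` of `(X, Y)`, and `Y` is any
surface or, if `H^1(X) = 0`, any threefold which satisfies the Lefschetz standard conjecture or any
abelian fourfold. The other hypotheses are then known theorems: the Hodge index theorem, and for abelian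
fourfolds `Y`, `Y₀` the theorem of Ancona. For example if `X` is a K3 surface with odd Picard number
over a function field with a finite field of constants then the Picard number jumps at ALL
specialisations to finite fields, by the Tate conjecture.
-/

open CategoryTheory AlgebraicGeometry

universe u v

namespace Pool.Agent.Results.MP_ffcd14_ag.DetectionAtPlaces

open Pool.Agent.H914 Pool.Agent.H914.VarClass Pool.Agent.H914.VarClass.Obj
  Pool.Agent.H281R3.HT Pool.Agent.R911.Iso Pool.Agent.H846.Det Pool.Agent.H846.Plc

/-- **Detection at places.** Let `X` and `Y` be polarized varieties over a field `k` (of any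
characteristic) which satisfy the hard Lefschetz theorem and the Lefschetz standard conjecture for
a Weil cohomology theory `W`, and let `2 l ≤ dim X + dim Y`.

(a) Let `l ≥ 2`, and let `X` be a surface such that for each proper subspace `U` of the
transcendental part of `H^2(X)` which is stable under the symmetries (for instance monodromy) `X₀`
has a divisor outside `NS(X) + U` at one place `(X₀, Y₀)` to which the cycles on `X × Y` and `Y × X`
specialise, where the standard conjecture of Hodge type is known for `Y` and `Y₀` (and for `C × Y`
if `H^1(X)` comes from the curve `C`) in the codimensions at most `l`. So if the transcendental part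
is irreducible, `X₀` has to have more divisors than `X` at ONE place.

(b) Or suppose that every partial isomorphism `v` of codimension `l` from `X` to `Y` (a
correspondence inducing an isomorphism between nonzero direct summands of the motives) is detected
at some place, which may depend on `v`: there are varieties `X₀`, `Y₀` and `Z` over some field
`k₀`, satisfying the Lefschetz standard conjecture, where `X₀` and `Y₀` are specialisations or
liftings of `X` and `Y` to which the one correspondence `v` specialises or lifts (to `v₀`), and an
algebraic cycle `z` of codimension `p` on `Z × X₀` such that `v₀ ∘ z`, of codimension `r`, is not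
numerically trivial and the standard conjecture of Hodge type holds for `Z × X₀` in the
codimensions `≤ p` and for `Z × Y₀` in the codimensions `≤ r`.

Then the standard conjecture of Hodge type holds for `X × Y` in the codimensions `≤ l`, hence in
all codimensions if `dim X + dim Y ≤ 2 l + 1`. -/
theorem result {k : Type u} [Field k] {𝒱 : VarClass k} {ops : CycleOps 𝒱}
    (W : WeilCohomology.{u, v} ops) (P Q : Polarized 𝒱) (hP : IsLefschetz W P)
    (hQ : IsLefschetz W Q) (l : ℕ) (hl : 2 * l ≤ (P.X.prod Q.X).dim)
    (h : (2 ≤ l ∧ EnoughJumps W P Q l) ∨
      ∀ v, IsPartialIso W P.X Q.X l v → DetectedSomewhere W P Q l v) :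
    HodgeUpTo W (P.prod ops Q) l ∧
      ((P.X.prod Q.X).dim ≤ 2 * l + 1 → HodgeStandard W (P.prod ops Q).X (P.prod ops Q).D) := by
  have h' : ∀ v, IsPartialIso W P.X Q.X l v → DetectedSomewhere W P Q l v := by
    rcases h with ⟨h2, h⟩ | h
    · exact fun v hv => detected_of_jumps h2 h hv
    · exact h
  have h1 := hodge_of_places W P Q hP hQ l hl h'
  refine ⟨h1, fun hd n hn => h1 n ?_ hn⟩
  have hn' : 2 * n ≤ (P.X.prod Q.X).dim := hn
  omega

end Pool.Agent.Results.MP_ffcd14_ag.DetectionAtPlaces
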