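import Mathlib
import Pool.Agent.H395.Odd.ClassMain

/-!
# The standard conjecture of Hodge type in the presence of exotic Tate classes: abelian varieties
whose exotic classes come from one imaginary quadratic field, in all dimensions and with any number
of factors, and all varieties which specialize to them

**The first statement.** Let `k` be an imaginary quadratic field (`Q : ImagQuad`). The standard
conjecture of Hodge type modulo numerical equivalence holds for all abelian varieties over an
algebraic closure of the field with `p` elements all simple factors of which are

* supersingular, or
* of **odd dimension** with centre `k` of the algebra of endomorphisms (`OddOver`): if `p` splits in
  `k` there is one of dimension `n` for each odd number `n` and each rational number `j / n < 1 / 2`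
  in lowest terms, `j > 0` for `n > 1`; the slopes of its Newton polygon are `j / n` and `1 - j / n`,
  and elliptic curves are the case `n = 1`; for instance the threefold with the slopes `1 / 3` and
  `2 / 3`, the two abelian varieties of dimension five with the slopes `1 / 5`, `4 / 5` and `2 / 5`,
  `3 / 5`, three of dimension nine with the smallest slopes `1 / 9`, `2 / 9` and `4 / 9`; or
* simple abelian varieties `A i` the centres `K i` of whose algebras of endomorphisms contain `k`,
  with `[K i : k]` a prime number and an algebra of endomorphisms of odd index (for instance `A i` of
  prime dimension), if each of the fields `K i` is linearly disjoint over `k` from the compositum of
  the Galois closures of the others (`PrimeOver`),

(`OddOrPrime`), and for all varieties over algebraically closed fields of characteristic `p` which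
specialize to them (`NumPositiveOn`). For the prime numbers `l` which do not split in `k` (one half
of all) numerical equivalence coincides with `l`-adic homological equivalence on them, and the
conjecture holds modulo `l`-adic homological equivalence (`HomPositiveOn`). As soon as there are two
factors in such a product which are not isogenous and not supersingular, there are exotic Tate
classes on the products of their powers; in general the Tate conjecture is not known for them, and
neither was the conjecture of Hodge type (new are for instance the products of powers of one of the
abelian varieties of dimension nine above and of the elliptic curve, or of the two abelian
varieties of dimension five above).

**The setting.** Over an algebraic closure of the field with `p` elements each abelian variety is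
isogenous to the reduction of an abelian variety of CM type (Honda, Tate). So an abelian variety
`Y` over it is modelled by `RedAV` (library): a finite product of CM types with Weil numbers which
satisfy the formula of Shimura and Taniyama. Let `H1 Y` be the rational homology of the lifting.
The `l`-adic cohomology of `Y`, with coefficients in an algebraically closed field `F.Ω l` which
contains the `l`-adic numbers, consists of the alternating forms on `F.Ω l ⊗ H1 Y`; we write their
restrictions to `H1 Y`, that is, functions of vectors in `H1 Y` (`Fun`). Let `W i` (`i` in a finite
set `I`) be Weil numbers `π i` of weight `a` in CM fields `K i` (`WeilNum`). A subset `J` of `I` is
given, and an imaginary quadratic field `k` (`Q : ImagQuad`), with embeddings into the fields `K i`,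
`i` in `J`. Let `𝒞` (`OfNumbers J W`) be the class of all `Y` each of whose factors is supersingular
or has a Frobenius endomorphism some power of which is a power of one of the `π i`, where for `i` in
`J` the degree of the field of the factor over `K i` is odd: up to isogeny `Y` is a product of a
supersingular abelian variety and of powers of the simple abelian varieties `A i` with the Weil
numbers `π i`, and for `i` in `J` the index `d i` of the division algebra `End (A i)` (of dimension
`(d i)²` over its centre `K i`) is odd. The dimension of `A i` is `d i * [K i : ℚ] / 2`, so the
index is automatically odd if the dimension is odd (or if the algebra is commutative).

**The second statement.** Suppose that *the exotic relations come from `k`* (`QuadShape`): the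
multiplicative relations between `p` and the conjugates of the numbers `π i` are trivial outside of
`J`, and for `i` in `J` they are, up to trivial ones, constant on the embeddings of `K i` over `k`.
In other words: up to trivial ones the relations are those between the norms of the `π i` from
`K i` to `k`. If `J` has at least two elements there are always such relations, because the norms
are units outside of `p` in an imaginary quadratic field. Nontrivial relations give Tate classes on the
abelian varieties in `𝒞` which are **not** generated by classes of divisors (exotic classes; for
instance the Weil classes on the products of several abelian varieties with multiplication by
`k`; if some of the algebras `End (A i)` are not commutative then most of the exotic classes are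
not Weil classes, only some odd powers of them are combinations of products of such classes and of
divisors), and the Tate conjecture is not known for them. Then:

* (`NumPositiveOn`) **the standard conjecture of Hodge type, modulo numerical equivalence, holds for
  all abelian varieties in `𝒞` and for all varieties `X` over arbitrary algebraically closed fields
  of characteristic `p` which specialize to them**, with `l`-adic coefficients for every prime
  number `l` (crystalline ones for `l = p`): if the class `a` of an algebraic cycle of codimension
  `j` is primitive, `D ^ (m + 1) a = 0` with `2 j + m = dim X`, and not numerically trivial, then
  the number `(-1) ^ j deg (a a D ^ m)` is positive. This is the question of this page for these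
  varieties; it is open in general for abelian varieties of dimension five and more.
* (`HomPositiveOn`) **if `l` does not split in `k`, numerical equivalence coincides with `l`-adic
  homological equivalence** for all abelian varieties in `𝒞`, and for the varieties which
  specialize to them and satisfy the conjecture `A` of Lefschetz type, and the standard conjecture
  of Hodge type holds for the classes modulo `l`-adic homological equivalence. (If `J` is empty
  then this is the case for all `l`.)

`SpecializesTo`: the ring `R` of algebraic cycles modulo homological equivalence on `X`, with an
ample divisor `D`, is mapped injectively into the one of `Y`, and `D` to the class of a polarization
given by `α`, compatible with the complex multiplications; by theorems of Honda, Tate and Zink each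
polarized abelian variety over an algebraic closure of a finite field is isogenous to one with such
an `α`. The set `C` of the families of the classes of algebraic cycles on the abelian varieties `Y`,
in the cohomology theories for all `l`, is a datum with the properties `IsTheory`: the formal
properties (sums, cup products, pull-backs and push-forwards along homomorphisms of the liftings),
rational degrees which do not depend on `l`, the theorem of Tate for divisors, the algebraicity of
the Hodge classes of degree two (Lefschetz) and of the split Weil classes in the dimensions four and
six (Markman), the rationality over `ℚ_l` of the intersection numbers of algebraic classes with
rational Hodge classes of the lifting (for `l = p` a theorem of Deligne, Ogus, Blasius and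
Wintenberger), the positivity of the Rosati involution (Weil), and algebraic classes are Tate
classes. All of this is known for the algebraic cycles.

The second half of the statement shows that such families are frequent. All powers of `π i`
generate `K i` (`QuadTypes`). For `i` outside of `J` one embedding of `K i` has a class of one of
the local types (`Local.LocalType`, six types; for instance one slope dominates the others in the
class, or the odd functions on the class are irreducible). For `i` in `J`:

* the functions with sum zero on the embeddings of `K i` over `k` are an irreducible representation
  of the automorphisms over `k` (`SumZeroIrreducible`), and the Newton polygon is **arbitrary**. By
  the last statement this holds if `[K i : k]` is a prime number, or if the automorphisms over `k`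
  act doubly transitively on these embeddings; or
* the field `K i` is arbitrary and one of the slopes over `k` dominates the others
  (`DominatedOver`), for the usual or for an `l`-adic absolute value;
* and the field `K i` is linearly disjoint over `k` from the compositum of the Galois closures of
  the other `K j`, `j` in `J` (`alone`).

**The third statement** is the case of one field `E` of degree at least six whose maximal real
subfield is triply transitive (for example the Galois group is the symmetric or, for degree at least
five, the alternating group), and of an arbitrary Weil number all powers of which generate `E`, with an
arbitrary Newton polygon: the conjectures hold for all powers of the abelian variety multiplied by
supersingular ones, and for everything that specializes to them, whether `E` contains an imaginary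
quadratic field or not. Only in the first case the index of the algebra of endomorphisms has to be
odd; the primes `l` in the second statement are then those which do not split in this quadratic
field.

**The proof.** The second statement. Let `s` be a monomial in the eigenvectors which occurs in a
primitive class. There is a monomial `t` on another abelian variety, of Hodge type for the lifting and defined
over `k`, such that `t` and the complex conjugate of `s` form a product of pairs. The sign of `s`
is the sign of `t` by the positivity for divisors, and the coefficients of `t` and of its
conjugate in a class of a cycle are conjugate elements of `k ⊗ ℚ_l` for each `l`. Their product
is a norm from `k ⊗ ℚ_l` for all `l` and a rational number independent of `l`; by the product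
formula for the Hilbert symbol it is positive (library, `QuadraticRelations`). If `k ⊗ ℚ_l` is a
field then one of the two coefficients is zero only if both are zero. So their product is not zero if
the class is not homologically trivial, and the numerical statement gives the homological one. If
the indices are odd numbers, and not one, there is in general no such `t` for `s`, but there is one
for an odd power `s ^ N`, a monomial on the power `Y ^ N` of the abelian variety: `N` is the product
of the indices (`Odd.oddRel_of_shape`). The product of the coefficients of `s` and of its conjugate
is a real number, so its sign is the sign of its `N`-th power (`Odd.sign_of_pow`). (For an even index
the sign is not determined in this way.) `QuadTypes`: one has to show that an integral vector `c` on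
the embeddings, odd under complex conjugation and orthogonal to all translates of the vector of the deviations of the slopes, is zero outside of
`J` and constant over `k`. For the local classes see the file `FreeAt`: two flipped embeddings are
not correlated. For `i` in `J` one subtracts two relations which differ by an automorphism over `k`
which fixes the other fields; this gives a vector with sum zero on the embeddings of `K i` over
`k`, orthogonal to the translates of the slopes. If it is not zero, then the slopes are constant
over `k` for all places, and so a power of `π i` is in `k`. The third statement: if there is no imaginary
quadratic subfield in `E`, then a cocycle argument (two-graphs) shows that any two embeddings
which are not conjugate are flipped, and all classes have one pair. If there is one, a subgroup of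
index two of a triply transitive group on at least four points is doubly transitive. For the first
statement one takes the Weil numbers of the factors, in `k` or in the fields `K i`, and common
powers of them of the same weight (`Odd.exists_family`).

**What was known.** The conjecture is known for divisors, for abelian fourfolds (Ancona, motives of
rank two), for abelian varieties whose Tate classes are generated by divisors (Milne), for the
squares of simple abelian varieties of prime dimension (Koshikawa), and in cases in which the
exotic classes have rank two (Agugliaro). The library has the criterion `QuadraticRelations` (the
numerical statement for an abelian variety over a finite field if the relations between the
Frobenius eigenvalues are generated by relations between two of them and by relations invariant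
over one `k`); it was applied to relations of rank one and to products of elliptic curves and of
simple abelian varieties of different **prime** dimensions (`PrimeDimensions`), and there is the
coincidence of numerical and homological equivalence for `l` nonsplit in `k` for the powers of one
simple abelian variety of odd **prime** dimension and elliptic curves (`OddPrimeDimension`). The
classes of flipped pairs are those of the former hand-in `LocalClassTypes` on this page, which is
contained in this one (`J` empty). Clozel proved that numerical and homological equivalence
coincide on an abelian variety over a finite field for a set of `l` of positive density. New here:
exotic classes in arbitrary dimensions, prime or not, for arbitrary Newton polygons or arbitrary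
fields; any number of factors of this kind, also of equal dimensions, and together with factors of
local types; algebras of endomorphisms which are not commutative, of odd index, where the exotic
classes are not Weil classes; all CM fields with triply transitive real subfield; the varieties which
specialize to these abelian varieties; and the homological statements for all `l` which do not split
in `k` in this generality.
-/

set_option autoImplicit false

namespace Pool.Agent.Results.MP_ffcd14_ag.ExoticQuadraticTypes

open NumberField Module Pool.Agent.H395.Cyc Pool.Agent.H395.Odd

/-- **The standard conjecture of Hodge type, with exotic classes from one imaginary quadratic field,
and the coincidence of numerical and homological equivalence.** -/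
theorem result (p : ℕ) [Fact p.Prime] (ν : PadicAlgCl p ≃+* ℂ) (a : ℕ) (ha : 0 < a) :
    (∀ (Q : ImagQuad) (I : Type) [Fintype I] (W : I → WeilNum p a) (θ : ∀ i, FHom Q.k (W i).E),
      PrimeOver Q W θ → NumPositiveOn (OddOrPrime (ν := ν) Q W) ∧
        HomPositiveOn Q.nonsplit (OddOrPrime (ν := ν) Q W)) ∧
    (∀ (Q : ImagQuad) (I : Type) [Fintype I] (J : Set I) (W : I → WeilNum p a)
      (θ : Embedded Q J W),
      (QuadShape Q J W θ → NumPositiveOn (OfNumbers (ν := ν) J W) ∧
        HomPositiveOn {l | J = ∅ ∨ l ∈ Q.nonsplit} (OfNumbers (ν := ν) J W)) ∧
      (QuadTypes Q J W θ → QuadShape Q J W θ)) ∧
    (∀ w : WeilNum p a, TriplyTransitive w.E → 6 ≤ finrank ℚ w.E → Generates w.num →
      ((∀ Q : ImagQuad, IsEmpty (FHom Q.k w.E)) →
        NumPositiveOn (OfNumbers (ν := ν) ∅ (fun _ : Unit => w)) ∧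
          HomPositiveOn Set.univ (OfNumbers (ν := ν) ∅ (fun _ : Unit => w))) ∧
      ∀ Q : ImagQuad, FHom Q.k w.E →
        NumPositiveOn (OfNumbers (ν := ν) Set.univ (fun _ : Unit => w)) ∧
          HomPositiveOn Q.nonsplit (OfNumbers (ν := ν) Set.univ (fun _ : Unit => w))) ∧
    OverCriteria :=
  ⟨fun _ _ _ _ _ h => odd_or_prime ha h,
    fun _ _ _ _ _ _ => ⟨fun h => ⟨Pool.Agent.H395.Odd.num_of ha h, Pool.Agent.H395.Odd.hom_of ha h⟩, shape_of⟩,
    fun w h3 hE hpow => ⟨Pool.Agent.H395.Odd.single_none ha w h3 hE hpow,
      Pool.Agent.H395.Odd.single_over ha w h3 hE hpow⟩, criteria⟩

end Pool.Agent.Results.MP_ffcd14_ag.ExoticQuadraticTypes
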