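import Pool.Agent.H846.HKn.Irr

/-!
# The standard conjecture of Hodge type in codimension two for varieties of hyperkähler type
-/

open CategoryTheory AlgebraicGeometry

universe u v

namespace Pool.Agent.Results.MP_ffcd14_ag.HyperkahlerCodimensionTwo

open Pool.Agent.H914 Pool.Agent.H914.VarClass Pool.Agent.H914.VarClass.Obj
  Pool.Agent.H281R3.HT Pool.Agent.R911.Iso Pool.Agent.H846.Det Pool.Agent.H846.HKn

/-- **Codimension two on varieties of hyperkähler type.** Let `X` be a variety of dimension
`2 n ≥ 4` over a field `k` (of any characteristic) with a divisor of positive degree which
satisfies the hard Lefschetz theorem and the Lefschetz standard conjecture for a Weil cohomology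
theory `W`, whose cohomology of degree two satisfies Fujiki's relation
`tr (x ^ (2 n)) = c (q x x) ^ n`, and whose algebraic classes of codimension two are generated by
products of classes of degree two and algebraic classes orthogonal to them with positive definite
intersection matrix. Suppose that for each proper subspace `U` of the transcendental part of `H²(X)`
which is stable under symmetries (for instance an open subgroup of the geometric monodromy group)
some `X₀` has a divisor outside `NS(X) + U` (so if the transcendental part is irreducible, ONE
specialisation with greater Picard number is enough), where the Hodge index theorem holds for `X` and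
`X₀`; or only that every idempotent `e ≠ 0` in the algebra
generated by a symmetric correspondence `t` on `H²(X)` is detected at some place, which may depend
on `t` and `e`: a
variety `X₀` over some field with the same cohomology ring, to which `t` and `e` specialise or
lift, which satisfies the Lefschetz standard conjecture, and for which either `X₀ × X₀` satisfies
the standard conjecture of Hodge type (for example if `X₀` is a lifting of `X` to characteristic
zero) or `X₀` satisfies the Hodge index theorem and has a divisor not killed by `e`. Then the
standard conjecture of Hodge type holds for `X` in codimension two; if `X` is a fourfold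
satisfying the Hodge index theorem, it holds in all codimensions. -/
theorem result {k : Type u} [Field k] {𝒱 : VarClass k} {ops : CycleOps 𝒱}
    (W : WeilCohomology.{u, v} ops) (P : Polarized 𝒱) (hP : IsLefschetz W P)
    (h0 : HodgeIn W P 0) (n : ℕ) (hn : 2 ≤ n) (hX : IsFujikiVariety W P.X P.D n)
    (h : EnoughJumps W P ∨ ∀ t e, IsSymmetricInDegreeTwo W P.X P.D t →
      IsIdempotentIn W P.X t e → DetectedSomewhere W P t e) :
    HodgeIn W P 2 ∧ (n = 2 → HodgeIn W P 1 → HodgeStandard W P.X P.D) := by
  have h2 := hodge_two W P hP h0 hn hX
    (h.elim (fun h t e ht he => detected_of_spanned
      (spanned_of_jumps hP (by rw [hX.dim_eq]; omega) h) ht he) id)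
  refine ⟨h2, ?_⟩
  rintro rfl h1 m hm
  rw [hX.dim_eq] at hm
  have hm' : m ≤ 2 := by omega
  interval_cases m
  · exact h0
  · exact h1
  · exact h2

end Pool.Agent.Results.MP_ffcd14_ag.HyperkahlerCodimensionTwo
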